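import Pool.Agent.Q231.Seg.NP

/-!
# Colouring `g`-segment graphs is NP-complete for every fixed `g ≥ 3`

`SegColouring g (C, k)` says that `C` is a chord set, that it is a `g`-segment graph and that
`χ(C) ≤ k`.  The reduction is from three-dimensional matching; it uses six families of `3m` chords
and `k = 3m` colours, where `m` is the number of triples.  Three of the families are cliques; each
chord has a label on each of the three segments it meets, two chords of the same colour never
intersect, and since the sums of the labels of the families agree, the inequalities obtained in this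
way between the labels of the chords with the same colour are all equalities.
-/

set_option autoImplicit false

namespace Pool.Agent.Results.MP_16f91c_lc.ThreeSegmentsNPComplete

open Pool.Agent.NPC Pool.Agent.Q231.Seg

/-- **For every fixed `g ≥ 3` the colouring problem for `g`-segment graphs (with the number of
colours in the input) is NP-complete**: it is in `NP` and `NP`-hard, and the hard instances may be
taken to be chord sets that are `3`-segment graphs (third part).  In particular the problem is
solvable in polynomial time if and only if `P = NP` (last part). -/
theorem result (g : ℕ) (hg : 3 ≤ g) :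
    InNPP (SegColouring g) ∧ NPHardP (SegColouring g) ∧
    (∀ L : Set (List Bool), InNP L → ∃ f : List Bool → List (ℕ × ℕ) × ℕ,
      PolyTime (fun x => bits (f x)) ∧
      (∀ x, IsChordSet (f x).1 ∧ IsSegment 3 (f x).1 ∧ IsSegment g (f x).1) ∧
      ∀ x, x ∈ L ↔ Colourable (f x).1 (f x).2) ∧
    (InPP (SegColouring g) ↔ ∀ L : Set (List Bool), InNP L → InP L) := by
  refine ⟨inNP_seg g, (hardI_seg hg).toNPHardP, fun L hL => ?_,
    ⟨fun h => NPHard.collapse (hardI_seg hg).toNPHardP h, fun h => h _ (inNP_seg g)⟩⟩
  obtain ⟨f, hf, hpr, hfL⟩ := hardPr L hL
  exact ⟨f, PC.toPolyTime hf, fun x => ⟨(hpr x).1, (hpr x).2, isSegment_mono hg (hpr x).2⟩, hfL⟩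

end Pool.Agent.Results.MP_16f91c_lc.ThreeSegmentsNPComplete
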